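import Mathlib
import Pool.Agent.Lib.helper22.Ultra

set_option autoImplicit false

namespace Pool.Agent.Results.MP_c54df4_lc.NoDivisor

open Filter Pool.Agent.Lib.helper22.Ultra

theorem result (X : Type) :
    ∃ (I : Type) (W : Ultrafilter I), IsEnlarging W X ∧ IsEnlarging W ℕ+ ∧
      ∃ F G : Ultrafilter ℕ+, TildeDvd F G ∧ ∃ y ∈ monad W G, ∀ x ∈ monad W F, ¬ x ∣ y := by
  classical
  obtain ⟨J, U, hX, hN⟩ := exists_enlarging X
  let fac : ℕ → ℕ+ := fun n => ⟨n.factorial, n.factorial_pos⟩
  let G : Ultrafilter ℕ+ := (Ultrafilter.of (atTop : Filter ℕ)).map fac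
  refine ⟨ℕ+ × J, tens G U, hX.tens G, hN.tens G, G.map (· + 1), G, ?_,
    ((Prod.fst : ℕ+ × J → ℕ+) : Germ _ ℕ+), ?_, ?_⟩
  · intro A hA
    obtain ⟨a, ha⟩ := Ultrafilter.nonempty_of_mem hA
    refine Ultrafilter.of_le atTop ?_
    filter_upwards [eventually_ge_atTop (a : ℕ)] with n hn
    exact ⟨a, ha, PNat.dvd_iff.2 (Nat.dvd_factorial a.pos hn)⟩
  · intro A hA
    rw [Germ.liftPred_coe, eventually_tens]
    filter_upwards [hA] with a ha
    exact Eventually.of_forall fun _ => ha
  · intro x hx hd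
    induction x using Germ.inductionOn with
    | h f =>
      have h1 := (eventually_tens G U _).1 (dvd_coe _ _ _ hd)
      have h2 : ∀ n : ℕ+, ∃ m : ℕ+, (∀ᶠ j in (U : Filter J), f (n, j) ∣ n) →
          m ≤ n ∧ ∀ᶠ j in (U : Filter J), f (n, j) = m := by
        intro n
        by_cases hn : ∀ᶠ j in (U : Filter J), f (n, j) ∣ n
        · obtain ⟨m, hm, h⟩ := const_of_finite U (fun j => f (n, j)) (Set.Iic n) (Set.finite_Iic n)
            (by filter_upwards [hn] with j hj; exact PNat.le_of_dvd hj)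
          exact ⟨m, fun _ => ⟨hm, h⟩⟩
        · exact ⟨1, fun h => absurd h hn⟩
      choose h hh using h2
      have hmap : G.map h = G.map (· + 1) := by
        apply Ultrafilter.coe_le_coe.1
        intro A hA
        have := hx A hA
        rw [Germ.liftPred_coe, eventually_tens] at this
        change ∀ᶠ n in (G : Filter ℕ+), h n ∈ A
        filter_upwards [this, h1] with n e1 e2
        obtain ⟨j, e3, e4⟩ := (e1.and (hh n e2).2).exists
        rwa [← e4]
      let k : ℕ → ℕ := fun m => if hm : 0 < m then (h ⟨m, hm⟩ : ℕ) - 1 else 0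
      have hk : ∀ n : ℕ+, k n = (h n : ℕ) - 1 := fun n => by simp only [k, n.pos, dif_pos]; rfl
      apply no_fix (G.map PNat.val) k
      · change ∀ᶠ (n : ℕ+) in (G : Filter ℕ+), k n < n
        filter_upwards [h1] with n hn
        have e1 : (h n : ℕ) ≤ n := (hh n hn).1
        have e2 := (h n).pos
        rw [hk]
        omega
      · have e : k ∘ PNat.val = (fun m : ℕ+ => (m : ℕ) - 1) ∘ h := funext hk
        rw [Ultrafilter.map_map, e, ← Ultrafilter.map_map, hmap, Ultrafilter.map_map]
        congr 1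

end Pool.Agent.Results.MP_c54df4_lc.NoDivisor
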